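import Mathlib
import Pool.Agent.Helper60.GP.Defs

/-!
MP_fb29e9_nt, blocks Near and Max of helper60's product inequality (helper69).
-/

set_option autoImplicit false

open Filter MeasureTheory Set
open scoped Real

namespace Pool.Agent.Helper60.GP

open Pool.Agent.Helper22.GC Pool.Agent.Helper53.OM Pool.Agent.Helper22.RZ

noncomputable section

/-- `lin` of a difference. -/
theorem lin_sub (T : Finset ℕ) (x y : T → ℤ) : lin T (x - y) = lin T x - lin T y := by
  unfold lin
  rw [← Finset.sum_sub_distrib]
  refine Finset.sum_congr rfl fun q _ => ?_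
  rw [Pi.sub_apply]
  push_cast
  ring

/-- The vectors `v` with entries `0, 1` for which `x + v` has entries `0, 1`. -/
def shifts (T : Finset ℕ) (x : T → ℤ) : Finset (T → ℤ) :=
  Fintype.piFinset fun q => ({0, 1} : Finset ℤ).filter (fun a => x q + a = 0 ∨ x q + a = 1)

theorem card_shifts {T : Finset ℕ} {x : T → ℤ} (hx : x ∈ idx T) :
    (shifts T x).card * 2 ^ nz T x = 2 ^ T.card := by
  classical
  unfold shifts nz
  rw [Fintype.card_piFinset, Finset.card_filter, ← Finset.prod_pow_eq_pow_sum,
    ← Finset.prod_mul_distrib]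
  have h1 : ∀ q : T, ((({0, 1} : Finset ℤ).filter (fun a => x q + a = 0 ∨ x q + a = 1)).card) *
      2 ^ (if x q ≠ 0 then 1 else 0) = 2 := by
    intro q
    rcases mem_idx.mp hx q with h | h | h <;> rw [h] <;> decide
  rw [Finset.prod_congr rfl fun q _ => h1 q, Finset.prod_const, Finset.card_univ,
    Fintype.card_coe]

/-- Block Near -/
theorem near_sum {T : Finset ℕ} {Q : ℝ} (hQ : 0 < Q) (hS : Sep Q T) (μ : ℝ) :
    ∑ x ∈ (idx T).filter (fun x => |lin T x - μ| < 1 / (2 * Q)), (1 / 2 : ℝ) ^ nz T x ≤ 1 := by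
  classical
  set near := (idx T).filter (fun x => |lin T x - μ| < 1 / (2 * Q)) with hnear
  set U : Finset (T → ℤ) := Fintype.piFinset fun _ => ({0, 1} : Finset ℤ) with hU
  have hUcard : U.card = 2 ^ T.card := by
    rw [hU, Fintype.card_piFinset, Finset.prod_const, Finset.card_univ, Fintype.card_coe]
    rfl
  have hsub : ∀ x, shifts T x ⊆ U := by
    intro x v hv
    rw [shifts, Fintype.mem_piFinset] at hv
    rw [hU, Fintype.mem_piFinset]
    exact fun q => (Finset.mem_filter.1 (hv q)).1
  have h2 : (0 : ℝ) < 2 ^ T.card := by positivity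
  have hterm : ∀ x ∈ near, (1 / 2 : ℝ) ^ nz T x = ((shifts T x).card : ℝ) / 2 ^ T.card := by
    intro x hx
    have hx' := (Finset.mem_filter.1 hx).1
    have h3 : ((shifts T x).card : ℝ) * 2 ^ nz T x = 2 ^ T.card := by
      exact_mod_cast card_shifts hx'
    rw [eq_div_iff h2.ne', ← h3, one_div, inv_pow]
    field_simp
  rw [Finset.sum_congr rfl hterm, ← Finset.sum_div, div_le_one h2]
  have hcount : ∑ x ∈ near, (shifts T x).card ≤ U.card := by
    have e1 : ∀ x ∈ near, (shifts T x).card = ∑ v ∈ U, if v ∈ shifts T x then 1 else 0 := by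
      intro x _
      rw [← Finset.card_filter]
      congr 1
      ext v
      rw [Finset.mem_filter]
      exact ⟨fun h => ⟨hsub x h, h⟩, fun h => h.2⟩
    rw [Finset.sum_congr rfl e1, Finset.sum_comm, Finset.card_eq_sum_ones]
    refine Finset.sum_le_sum fun v _ => ?_
    rw [← Finset.card_filter, Finset.card_le_one]
    intro x hx y hy
    rw [Finset.mem_filter] at hx hy
    obtain ⟨hx1, hx2⟩ := hx
    obtain ⟨hy1, hy2⟩ := hy
    have hxm := (Finset.mem_filter.1 hx1)
    have hym := (Finset.mem_filter.1 hy1)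
    rw [shifts, Fintype.mem_piFinset] at hx2 hy2
    have hidx : x - y ∈ idx T := by
      rw [mem_idx]
      intro q
      have hx3 := (Finset.mem_filter.1 (hx2 q)).2
      have hy3 := (Finset.mem_filter.1 (hy2 q)).2
      rw [Pi.sub_apply]
      omega
    by_contra hne
    have h3 := hS (x - y) hidx (sub_ne_zero.2 hne)
    rw [lin_sub] at h3
    have h4 : |lin T x - lin T y| ≤ |lin T x - μ| + |lin T y - μ| := by
      have := abs_sub (lin T x - μ) (lin T y - μ)
      rwa [sub_sub_sub_cancel_right] at this
    have h5 : 1 / (2 * Q) + 1 / (2 * Q) = 1 / Q := by field_simp; norm_num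
    linarith [hxm.2, hym.2]
  have h6 : ((∑ x ∈ near, (shifts T x).card : ℕ) : ℝ) ≤ ((2 ^ T.card : ℕ) : ℝ) := by
    exact_mod_cast hUcard ▸ hcount
  push_cast at h6
  exact h6

/-- Restriction and extension by zero do not change `lin`. -/
theorem lin_restrict {T T' : Finset ℕ} (hT : T' ⊆ T) (x : T' → ℤ) :
    lin T (fun q => ext0 T' x q) = lin T' x := by
  unfold lin
  rw [← sum_ext0 T' x, Finset.sum_coe_sort T (fun q : ℕ => ((ext0 T' x q : ℤ) : ℝ) * √(q : ℝ))]
  refine (Finset.sum_subset hT fun q _ hq => ?_).symm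
  rw [ext0, dif_neg hq]
  simp

theorem Sep.mono {Q : ℝ} {T T' : Finset ℕ} (h : Sep Q T) (hT : T' ⊆ T) : Sep Q T' := by
  intro x hx hx0
  rw [← lin_restrict hT x]
  apply h
  · rw [mem_idx]
    intro q
    rw [ext0]
    split_ifs with hq
    · exact mem_idx.mp hx _
    · exact Or.inr (Or.inl rfl)
  · intro h0
    apply hx0
    funext q
    have := congrFun h0 ⟨q, hT q.2⟩
    simp only [Pi.zero_apply] at this
    rwa [ext0_coe] at this

/-- Block Max: maximal sets without relations -/
theorem exists_max {Q : ℝ} (hQ : 1 ≤ Q) (M : Finset ℕ) : ∃ T ⊆ M, Sep Q T ∧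
    ∀ K ∈ M, ∃ x ∈ idx T, |lin T x - √K| < 1 / Q := by
  classical
  have hQ0 : (0 : ℝ) < 1 / Q := by positivity
  set P := M.powerset.filter (fun T => Sep Q T) with hP
  have hne : P.Nonempty := by
    refine ⟨∅, ?_⟩
    rw [hP, Finset.mem_filter, Finset.mem_powerset]
    refine ⟨Finset.empty_subset _, ?_⟩
    intro x _ hx0
    exact absurd (funext fun q : (∅ : Finset ℕ) => absurd q.2 (Finset.notMem_empty _)) hx0
  obtain ⟨T, hTP, hmax⟩ := Finset.exists_max_image P Finset.card hne
  rw [hP, Finset.mem_filter, Finset.mem_powerset] at hTP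
  obtain ⟨hTM, hTS⟩ := hTP
  refine ⟨T, hTM, hTS, fun K hK => ?_⟩
  by_cases hKT : K ∈ T
  · refine ⟨Pi.single ⟨K, hKT⟩ 1, ?_, ?_⟩
    · rw [mem_idx]
      intro q
      by_cases hq : q = ⟨K, hKT⟩
      · rw [hq, Pi.single_eq_same]; exact Or.inr (Or.inr rfl)
      · rw [Pi.single_eq_of_ne hq]; exact Or.inr (Or.inl rfl)
    · have : lin T (Pi.single ⟨K, hKT⟩ 1) = √K := by
        unfold lin
        rw [Finset.sum_eq_single (⟨K, hKT⟩ : T)]
        · rw [Pi.single_eq_same]; simp
        · intro q _ hq
          rw [Pi.single_eq_of_ne hq]; simp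
        · intro h; exact absurd (Finset.mem_univ _) h
      rw [this, sub_self, abs_zero]
      exact hQ0
  · have hnot : ¬ Sep Q (insert K T) := by
      intro hsep
      have hmem : insert K T ∈ P := by
        rw [hP, Finset.mem_filter, Finset.mem_powerset]
        exact ⟨Finset.insert_subset hK hTM, hsep⟩
      have := hmax _ hmem
      rw [Finset.card_insert_of_notMem hKT] at this
      omega
    unfold Sep at hnot
    push Not at hnot
    obtain ⟨y, hy, hy0, hlt⟩ := hnot
    have hyi := mem_idx.mp hy
    set c := y ⟨K, Finset.mem_insert_self K T⟩ with hc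
    set x : T → ℤ := fun q => y ⟨q, Finset.mem_insert_of_mem q.2⟩ with hx
    have hlin : lin (insert K T) y = c * √K + lin T x := by
      unfold lin
      rw [← sum_ext0, Finset.sum_insert hKT]
      congr 1
      · rw [ext0, dif_pos (Finset.mem_insert_self K T)]
      · rw [← Finset.sum_coe_sort]
        refine Finset.sum_congr rfl fun q _ => ?_
        rw [ext0, dif_pos (Finset.mem_insert_of_mem q.2)]
    have hxi : x ∈ idx T := mem_idx.mpr fun q => hyi _
    rcases hyi ⟨K, Finset.mem_insert_self K T⟩ with h | h | h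
    · -- coefficient `-1`
      refine ⟨x, hxi, ?_⟩
      rw [← hc] at h
      rw [hlin, h] at hlt
      rwa [show lin T x - √K = ((-1 : ℤ) : ℝ) * √K + lin T x by push_cast; ring]
    · -- coefficient `0`
      exfalso
      rw [← hc] at h
      have hx0 : x ≠ 0 := by
        intro h0
        apply hy0
        funext q
        rcases Finset.mem_insert.1 q.2 with h1 | h1
        · have : q = ⟨K, Finset.mem_insert_self K T⟩ := Subtype.ext h1
          rw [this]; exact h
        · have := congrFun h0 ⟨q, h1⟩
          exact this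
      have h2 := hTS x hxi hx0
      rw [hlin, h] at hlt
      simp only [Int.cast_zero, zero_mul, zero_add] at hlt
      linarith
    · -- coefficient `1`
      refine ⟨-x, ?_, ?_⟩
      · rw [mem_idx]
        intro q
        have := mem_idx.mp hxi q
        rw [Pi.neg_apply]
        omega
      · rw [← hc] at h
        rw [hlin, h] at hlt
        have h3 : lin T (-x) = - lin T x := by
          have := lin_sub T 0 x
          rw [zero_sub] at this
          rw [this]
          unfold lin
          simp
        rw [h3, ← abs_neg]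
        rwa [show -(-lin T x - √K) = ((1 : ℤ) : ℝ) * √K + lin T x by push_cast; ring]

end

end Pool.Agent.Helper60.GP
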